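import Pool.Agent.TH714.CC.Shadow

/-!
# The transitive closure of topological homotopy ribbon concordance

A homotopy ribbon concordance with exterior `Y`, whose fundamental group is a quotient of the group
of `K` and contains the group of `J`, gives maps `A_J → H₁(Y; Λ) ← A_K`, the left one injective with
cokernel presented by a square matrix, the right one surjective. Such diagrams can be composed, so
all algebraic consequences of `K ≤ J` hold for the transitive closure of the relation.
-/

set_option autoImplicit false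

open Matrix

namespace Pool.Agent.Results.MP_8e8fd4_gt.TransitiveClosure

open Pool.Agent.TH714.CC

/-- A module presented by a square matrix over any finite index type is square presented. -/
theorem squarePresented_of {κ : Type} [Fintype κ] [DecidableEq κ] {M : Type} [AddCommGroup M]
    [Module Lam M] (R : Matrix κ κ Lam) (Φ : (κ → Lam) →ₗ[Lam] M) (hΦ : Function.Surjective Φ)
    (hker : ∀ v, Φ v = 0 ↔ ∃ w, R *ᵥ w = v) : SquarePresented M R.det := by
  let e : κ ≃ Fin (Fintype.card κ) := Fintype.equivFin κ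
  let E : (Fin (Fintype.card κ) → Lam) ≃ₗ[Lam] (κ → Lam) := LinearEquiv.funCongrLeft Lam Lam e
  have hE : ∀ v, E v = v ∘ e := fun v => rfl
  let Φ' : (Fin (Fintype.card κ) → Lam) →ₗ[Lam] M := Φ.comp (E : _ →ₗ[Lam] _)
  have hΦ' : Function.Surjective Φ' := by
    show Function.Surjective (Φ ∘ E)
    exact hΦ.comp E.surjective
  refine ⟨Fintype.card κ, Matrix.reindex e e R, Matrix.det_reindex_self e R, ⟨?_⟩⟩
  have hk : LinearMap.range (Matrix.reindex e e R).mulVecLin = LinearMap.ker Φ' := by
    ext v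
    rw [LinearMap.mem_range, LinearMap.mem_ker]
    show _ ↔ Φ (E v) = 0
    rw [hker, hE]
    constructor
    · rintro ⟨w, hw⟩
      refine ⟨w ∘ e, ?_⟩
      rw [← hw]
      funext i
      simp only [Matrix.mulVecLin_apply, Matrix.mulVec, dotProduct, Function.comp_apply,
        Matrix.reindex_apply, Matrix.submatrix_apply, Equiv.symm_apply_apply]
      exact Fintype.sum_equiv e _ _ (fun j => by simp)
    · rintro ⟨w, hw⟩
      refine ⟨w ∘ e.symm, ?_⟩
      funext i
      have h1 := congrFun hw (e.symm i)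
      simp only [Function.comp_apply, Equiv.apply_symm_apply] at h1
      rw [← h1]
      simp only [Matrix.mulVecLin_apply, Matrix.mulVec, dotProduct, Function.comp_apply,
        Matrix.reindex_apply, Matrix.submatrix_apply]
      exact (Fintype.sum_equiv e _ _ (fun j => by simp)).symm
  exact (Submodule.quotEquivOfEq _ _ hk).trans (LinearMap.quotKerEquivOfSurjective Φ' hΦ')

/-- An extension of square presented modules is square presented. -/
theorem squarePresented_extension {M L N : Type} [AddCommGroup M] [Module Lam M] [AddCommGroup L]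
    [Module Lam L] [AddCommGroup N] [Module Lam N] {f g : Lam} (i : N →ₗ[Lam] M)
    (hi : Function.Injective i) (p : M →ₗ[Lam] L) (hp : Function.Surjective p)
    (hip : ∀ x, p x = 0 ↔ ∃ y, i y = x) (hN : SquarePresented N f) (hL : SquarePresented L g) :
    SquarePresented M (f * g) := by
  obtain ⟨n, P, hP, ⟨eN⟩⟩ := hN
  obtain ⟨m, Q, hQ, ⟨eL⟩⟩ := hL
  -- generators
  let φ1 : (Fin n → Lam) →ₗ[Lam] N :=
    (eN : Coker P →ₗ[Lam] N).comp (LinearMap.range P.mulVecLin).mkQ
  have hφ1 : Function.Surjective φ1 := by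
    show Function.Surjective (eN ∘ (LinearMap.range P.mulVecLin).mkQ)
    exact eN.surjective.comp (Submodule.mkQ_surjective _)
  have hφ1k : ∀ x, φ1 x = 0 ↔ ∃ y, P *ᵥ y = x := by
    intro x
    rw [← mk_eq_zero P x]
    exact map_eq_zero_iff _ eN.injective
  obtain ⟨φ2, hφ2⟩ := Module.projective_lifting_property p
    ((eL : Coker Q →ₗ[Lam] L).comp (LinearMap.range Q.mulVecLin).mkQ) hp
  have hφ2' : ∀ y, p (φ2 y) = eL (Submodule.Quotient.mk y) := fun y => LinearMap.congr_fun hφ2 y
  have hφ2k : ∀ y, p (φ2 y) = 0 ↔ ∃ z, Q *ᵥ z = y := by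
    intro y
    rw [← mk_eq_zero Q y, hφ2']
    exact map_eq_zero_iff _ eL.injective
  -- the matrix B
  have hB : ∀ j : Fin m, ∃ b : Fin n → Lam, i (φ1 b) = -φ2 (Q *ᵥ Pi.single j 1) := by
    intro j
    obtain ⟨y, hy⟩ := (hip (φ2 (Q *ᵥ Pi.single j 1))).1 ((hφ2k _).2 ⟨_, rfl⟩)
    obtain ⟨b, hb⟩ := hφ1 (-y)
    exact ⟨b, by rw [hb, map_neg, hy]⟩
  choose b hb using hB
  let B : Matrix (Fin n) (Fin m) Lam := Matrix.of fun r j => b j r
  have hBz : ∀ z : Fin m → Lam, i (φ1 (B *ᵥ z)) = -φ2 (Q *ᵥ z) := by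
    have h1 : (i.comp (φ1.comp B.mulVecLin)) = -(φ2.comp Q.mulVecLin) := by
      refine LinearMap.pi_ext' fun j => LinearMap.ext_ring ?_
      have h2 : B *ᵥ (Pi.single j 1) = b j := by
        rw [Matrix.mulVec_single_one]
        rfl
      show i (φ1 (B *ᵥ (Pi.single j 1))) = -φ2 (Q *ᵥ (Pi.single j 1))
      rw [h2, hb]
    intro z
    exact LinearMap.congr_fun h1 z
  -- the presentation
  let Φ : (Fin n ⊕ Fin m → Lam) →ₗ[Lam] M :=
    (i.comp φ1).comp (LinearMap.funLeft Lam Lam Sum.inl)
      + φ2.comp (LinearMap.funLeft Lam Lam Sum.inr)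
  have hv : ∀ v : Fin n ⊕ Fin m → Lam,
      Φ v = i (φ1 (v ∘ Sum.inl)) + φ2 (v ∘ Sum.inr) := fun v => rfl
  have key := squarePresented_of (Matrix.fromBlocks P B 0 Q) Φ ?_ ?_
  · rw [Matrix.det_fromBlocks_zero₂₁, hP, hQ] at key
    exact key
  · intro x
    obtain ⟨y', hy'⟩ := Submodule.Quotient.mk_surjective _ (eL.symm (p x))
    have h1 : p (x - φ2 y') = 0 := by
      rw [map_sub, hφ2', hy', eL.apply_symm_apply, sub_self]
    obtain ⟨w, hw⟩ := (hip _).1 h1
    obtain ⟨v, hv⟩ := hφ1 w
    refine ⟨Sum.elim v y', ?_⟩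
    show i (φ1 v) + φ2 y' = x
    rw [hv, hw, sub_add_cancel]
  · intro v
    rw [hv]
    constructor
    · intro h0
      have h1 : p (φ2 (v ∘ Sum.inr)) = 0 := by
        have h2 := congrArg p h0
        rw [map_add, map_zero, (hip _).2 ⟨_, rfl⟩, zero_add] at h2
        exact h2
      obtain ⟨z, hz⟩ := (hφ2k _).1 h1
      have h3 : φ1 (v ∘ Sum.inl - B *ᵥ z) = 0 := by
        apply hi
        rw [map_sub, map_sub, hBz, hz, map_zero, sub_neg_eq_add]
        exact h0
      obtain ⟨y, hy⟩ := (hφ1k _).1 h3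
      refine ⟨Sum.elim y z, ?_⟩
      rw [Matrix.fromBlocks_mulVec]
      funext s
      rcases s with s | s
      · have := congrFun hy s
        simp only [Sum.elim_inl, Sum.elim_comp_inl, Sum.elim_comp_inr, Pi.add_apply] at this ⊢
        rw [this]
        simp
      · have := congrFun hz s
        simp only [Sum.elim_inr, Sum.elim_comp_inl, Sum.elim_comp_inr, Pi.add_apply] at this ⊢
        rw [this]
        simp
    · rintro ⟨w, rfl⟩
      rw [Matrix.fromBlocks_mulVec, Sum.elim_comp_inl, Sum.elim_comp_inr, map_add, map_add, hBz,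
        (hφ1k _).2 ⟨_, rfl⟩, map_zero, zero_add, Matrix.zero_mulVec, zero_add]
      exact neg_add_cancel _

/-- Shadows can be composed. -/
theorem shadow_comp {A B C : Type} [AddCommGroup A] [Module Lam A] [AddCommGroup B]
    [Module Lam B] [AddCommGroup C] [Module Lam C] {lA : A → A → QL} {lB : B → B → QL}
    {lC : C → C → QL} {a b c : Lam} (h₁ : RibbonShadow lA lB a b) (h₂ : RibbonShadow lB lC b c) :
    RibbonShadow lA lC a c := by
  obtain ⟨X, iX, mX, ι, ρ, f, hι, hρ, hq, hass, hl⟩ := h₁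
  obtain ⟨Y, iY, mY, ι', ρ', f', hι', hρ', hq', hass', hl'⟩ := h₂
  -- the quotient of Y by the image of the kernel of ρ
  let N : Submodule Lam Y := (LinearMap.ker ρ).map ι'
  let π : Y →ₗ[Lam] (Y ⧸ N) := N.mkQ
  have hπ : ∀ y, π y = 0 ↔ y ∈ N := fun y => Submodule.Quotient.mk_eq_zero N
  -- X embeds in Y / N
  let σ : B →ₗ[Lam] (Y ⧸ N) := π.comp ι'
  have hσ : ∀ x, σ x = 0 ↔ ρ x = 0 := by
    intro x
    show π (ι' x) = 0 ↔ _
    rw [hπ]
    constructor
    · rintro ⟨y, hy, hyx⟩
      rw [← hι' hyx]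
      exact hy
    · intro hx
      exact ⟨x, hx, rfl⟩
  have hkk : LinearMap.ker ρ = LinearMap.ker σ := by
    ext x
    rw [LinearMap.mem_ker, LinearMap.mem_ker, hσ]
  let j : X →ₗ[Lam] (Y ⧸ N) :=
    ((LinearMap.ker ρ).liftQ σ (le_of_eq hkk)).comp
      ((LinearMap.quotKerEquivOfSurjective ρ hρ).symm : X →ₗ[Lam] B ⧸ LinearMap.ker ρ)
  have hj : ∀ x, j (ρ x) = σ x := by
    intro x
    have h1 : (LinearMap.quotKerEquivOfSurjective ρ hρ).symm (ρ x)
        = (LinearMap.ker ρ).mkQ x := by
      rw [LinearEquiv.symm_apply_eq]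
      rfl
    show ((LinearMap.ker ρ).liftQ σ (le_of_eq hkk))
      ((LinearMap.quotKerEquivOfSurjective ρ hρ).symm (ρ x)) = _
    rw [h1]
    exact Submodule.liftQ_apply _ _ _
  have hji : Function.Injective j := by
    rw [injective_iff_map_eq_zero]
    intro y hy
    obtain ⟨x, rfl⟩ := hρ y
    rw [hj, hσ] at hy
    exact hy
  -- the composite
  refine ⟨Y ⧸ N, inferInstance, inferInstance, j.comp ι, π.comp ρ', f * f', ?_, ?_, ?_, ?_, ?_⟩
  · rw [LinearMap.coe_comp]
    exact hji.comp hι
  · rw [LinearMap.coe_comp]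
    exact (Submodule.mkQ_surjective N).comp hρ'
  · -- the quotient is an extension
    let i : (X ⧸ LinearMap.range ι) →ₗ[Lam] ((Y ⧸ N) ⧸ LinearMap.range (j.comp ι)) :=
      (LinearMap.range ι).mapQ (LinearMap.range (j.comp ι)) j (by
        rintro _ ⟨x, rfl⟩
        exact ⟨x, rfl⟩)
    have hi : Function.Injective i := by
      rw [injective_iff_map_eq_zero]
      intro y hy
      obtain ⟨x, rfl⟩ := Submodule.Quotient.mk_surjective _ y
      have h1 : (Submodule.Quotient.mk (j x) : (Y ⧸ N) ⧸ LinearMap.range (j.comp ι)) = 0 := hy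
      rw [Submodule.Quotient.mk_eq_zero] at h1 ⊢
      obtain ⟨z, hz⟩ := h1
      exact ⟨z, hji hz⟩
    have hN : N ≤ LinearMap.range ι' := by
      rintro _ ⟨x, -, rfl⟩
      exact ⟨x, rfl⟩
    let q : (Y ⧸ N) →ₗ[Lam] (Y ⧸ LinearMap.range ι') :=
      N.liftQ (LinearMap.range ι').mkQ (by rw [Submodule.ker_mkQ]; exact hN)
    have hq1 : ∀ y, q (π y) = Submodule.Quotient.mk y := fun y => Submodule.liftQ_apply _ _ _
    have hqj : ∀ x, q (j x) = 0 := by
      intro x
      obtain ⟨y, rfl⟩ := hρ x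
      rw [hj]
      show q (π (ι' y)) = 0
      rw [hq1, Submodule.Quotient.mk_eq_zero]
      exact ⟨y, rfl⟩
    let p : ((Y ⧸ N) ⧸ LinearMap.range (j.comp ι)) →ₗ[Lam] (Y ⧸ LinearMap.range ι') :=
      (LinearMap.range (j.comp ι)).liftQ q (by
        rintro _ ⟨x, rfl⟩
        exact hqj _)
    have hp1 : ∀ y, p (Submodule.Quotient.mk y) = q y := fun y => Submodule.liftQ_apply _ _ _
    have hp : Function.Surjective p := by
      intro y
      obtain ⟨y', rfl⟩ := Submodule.Quotient.mk_surjective _ y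
      exact ⟨Submodule.Quotient.mk (π y'), by rw [hp1, hq1]⟩
    refine squarePresented_extension i hi p hp ?_ hq hq'
    intro x
    obtain ⟨x', rfl⟩ := Submodule.Quotient.mk_surjective _ x
    obtain ⟨y, rfl⟩ := Submodule.mkQ_surjective N x'
    constructor
    · intro h0
      rw [hp1] at h0
      have h1 : (Submodule.Quotient.mk y : Y ⧸ LinearMap.range ι') = 0 := by
        rw [← hq1]
        exact h0
      rw [Submodule.Quotient.mk_eq_zero] at h1
      obtain ⟨z, rfl⟩ := h1
      refine ⟨Submodule.Quotient.mk (ρ z), ?_⟩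
      show Submodule.Quotient.mk (j (ρ z)) = _
      rw [hj]
      rfl
    · rintro ⟨z, hz⟩
      obtain ⟨z', rfl⟩ := Submodule.Quotient.mk_surjective _ z
      rw [← hz]
      show p (Submodule.Quotient.mk (j z')) = 0
      rw [hp1, hqj]
  · -- orders
    have h1 : a * (f * f' * bar (f * f')) = (a * (f * bar f)) * (f' * bar f') := by
      rw [bar_mul]
      ring
    rw [h1]
    exact hass'.trans (hass.mul_right _)
  · -- pairings
    intro x y x' y' hx hy
    have key : ∀ (x : A) (x' : C), (j.comp ι) x = (π.comp ρ') x' →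
        ∃ u : B, ι x = ρ u ∧ ι' u = ρ' x' := by
      intro x x' hx
      obtain ⟨u, hu⟩ := hρ (ι x)
      have h1 : π (ρ' x' - ι' u) = 0 := by
        have h2 : j (ι x) = π (ρ' x') := hx
        rw [map_sub, ← h2, ← hu, hj]
        exact sub_self _
      rw [hπ] at h1
      obtain ⟨v, hv, hv'⟩ := h1
      refine ⟨u + v, ?_, ?_⟩
      · have hv2 : ρ v = 0 := hv
        rw [map_add, hv2, add_zero, hu]
      · rw [map_add, hv']
        abel
    obtain ⟨u, hu, hu'⟩ := key x x' hx
    obtain ⟨v, hv, hv'⟩ := key y y' hy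
    rw [hl x y u v hu hv]
    exact hl' u v x' y' hu' hv'

/-- The identity is a shadow. -/
theorem shadow_refl {A : Type} [AddCommGroup A] [Module Lam A] (lA : A → A → QL) (a : Lam) :
    RibbonShadow lA lA a a := by
  refine ⟨A, inferInstance, inferInstance, LinearMap.id, LinearMap.id, 1,
    Function.injective_id, Function.surjective_id, ?_, ?_, ?_⟩
  · refine ⟨0, 0, by simp, ⟨?_⟩⟩
    have h1 : Subsingleton (A ⧸ LinearMap.range (LinearMap.id : A →ₗ[Lam] A)) := by
      rw [Submodule.Quotient.subsingleton_iff, LinearMap.range_id]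
    have h2 : Subsingleton (Coker (0 : Matrix (Fin 0) (Fin 0) Lam)) := inferInstance
    exact LinearEquiv.ofSubsingleton _ _
  · have h1 : bar (1 : Lam) = 1 := map_one _
    rw [h1, mul_one, mul_one]
  · rintro x y x' y' hx hy
    have hx' : x = x' := hx
    have hy' : y = y' := hy
    rw [hx', hy']

/-- A shadow with associated orders gives an isometry. -/
theorem shadow_associated {A B : Type} [AddCommGroup A] [Module Lam A] [AddCommGroup B]
    [Module Lam B] {lA : A → A → QL} {lB : B → B → QL} {a b : Lam}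
    (hs : RibbonShadow lA lB a b) (hA : SquarePresented A a) (hB : SquarePresented B b)
    (hb : b ≠ 0) (hba : Associated b a) :
    ∃ e : A ≃ₗ[Lam] B, ∀ x y, lB (e x) (e y) = lA x y := by
  obtain ⟨X, _, _, ι, ρ, f, hι, hρ, hq, hass, hl⟩ := hs
  have hf : IsUnit f := by
    obtain ⟨u, hu⟩ := hba.symm.trans hass
    have ha : a ≠ 0 := fun h0 => hb ((hba.eq_zero_iff).2 h0)
    have h1 : a * (u : Lam) = a * (f * bar f) := hu
    have h2 : (u : Lam) = f * bar f := mul_left_cancel₀ ha h1
    have h3 : IsUnit (f * bar f) := by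
      rw [← h2]
      exact u.isUnit
    exact isUnit_of_mul_isUnit_left h3
  obtain ⟨n, P, hP, ⟨e⟩⟩ := hq
  have hsub : Subsingleton (Coker P) := coker_subsingleton P (by rwa [hP])
  have hsub2 : Subsingleton (X ⧸ LinearMap.range ι) := e.symm.injective.subsingleton
  have hιs : Function.Surjective ι := by
    rw [← LinearMap.range_eq_top]
    exact Submodule.Quotient.subsingleton_iff.1 hsub2
  set E : A ≃ₗ[Lam] X := LinearEquiv.ofBijective ι ⟨hι, hιs⟩ with hE
  set ρ' : B →ₗ[Lam] A := (E.symm : X →ₗ[Lam] A).comp ρ with hρ'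
  have hρ's : Function.Surjective ρ' := by
    rw [hρ']
    simp only [LinearMap.coe_comp, LinearEquiv.coe_coe]
    exact E.symm.surjective.comp hρ
  have hρ'i : Function.Injective ρ' := key' hB hA hb hba ρ' hρ's
  set F : B ≃ₗ[Lam] A := LinearEquiv.ofBijective ρ' ⟨hρ'i, hρ's⟩ with hF
  have hFe : ∀ x : A, ι x = ρ (F.symm x) := by
    intro x
    have h1 : ρ' (F.symm x) = x := F.apply_symm_apply x
    have h2 : E (ρ' (F.symm x)) = ρ (F.symm x) := by
      rw [hρ']
      exact E.apply_symm_apply _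
    rw [h1] at h2
    exact h2
  exact ⟨F.symm, fun x y => (hl x y _ _ (hFe x) (hFe y)).symm⟩

/-- Shadows in both directions give associated orders. -/
theorem associated_of_shadows {A B : Type} [AddCommGroup A] [Module Lam A] [AddCommGroup B]
    [Module Lam B] {lA : A → A → QL} {lB : B → B → QL} {a b : Lam}
    (h₁ : RibbonShadow lA lB a b) (h₂ : RibbonShadow lB lA b a) : Associated b a := by
  obtain ⟨-, -, -, -, -, f, -, -, -, h1, -⟩ := h₁
  obtain ⟨-, -, -, -, -, g, -, -, -, h2, -⟩ := h₂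
  exact associated_of_dvd_dvd ((Dvd.intro _ rfl).trans h2.symm.dvd)
    ((Dvd.intro _ rfl).trans h1.symm.dvd)

/-- Knots with topological homotopy ribbon concordance, Alexander modules, Blanchfield pairings and
Alexander polynomials. -/
structure ThrcTheory where
  /-- the knots -/
  Knot : Type
  /-- `Le K J` is `K ≤ J`: the group of `K` maps onto the group of the annulus exterior, the group
  of `J` maps into it -/
  Le : Knot → Knot → Prop
  /-- the Alexander module -/
  A : Knot → Type
  [grp : ∀ K, AddCommGroup (A K)]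
  [mod : ∀ K, Module Lam (A K)]
  /-- the Blanchfield pairing -/
  Bl : ∀ K, A K → A K → QL
  /-- the Alexander polynomial -/
  Δ : Knot → Lam
  Δ_ne : ∀ K, Δ K ≠ 0
  pres : ∀ K, SquarePresented (A K) (Δ K)
  shadow : ∀ {K J}, Le K J → RibbonShadow (Bl J) (Bl K) (Δ J) (Δ K)

attribute [instance] ThrcTheory.grp ThrcTheory.mod

namespace ThrcTheory

variable (T : ThrcTheory)

/-- `K` and `J` are joined by a chain `K ≤ ... ≤ J` of any length. -/
def Chain (K J : T.Knot) : Prop := Relation.ReflTransGen T.Le K J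

/-- `K` and `J` have isometric Blanchfield pairings. -/
def Isometric (K J : T.Knot) : Prop :=
  ∃ e : T.A K ≃ₗ[Lam] T.A J, ∀ x y, T.Bl J (e x) (e y) = T.Bl K x y

variable {T}

/-- A chain has a shadow. -/
theorem Chain.shadow {K J : T.Knot} (h : T.Chain K J) :
    RibbonShadow (T.Bl J) (T.Bl K) (T.Δ J) (T.Δ K) := by
  induction h with
  | refl => exact shadow_refl _ _
  | tail _ h ih => exact shadow_comp (T.shadow h) ih

end ThrcTheory

theorem result (T : ThrcTheory) (K J : T.Knot) (h : T.Chain K J) :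
    RibbonShadow (T.Bl J) (T.Bl K) (T.Δ J) (T.Δ K) ∧
    (T.Chain J K → T.Isometric J K) ∧
    (NormFree (T.Δ K) → T.Isometric J K) ∧
    (Cyclic (T.A K) → Cyclic (T.A J)) ∧
    ∀ d, StablyGen d (T.A K) → StablyGen d (T.A J) := by
  refine ⟨h.shadow, fun h' => ?_, fun hn => ?_, fun hc => ?_, fun d hd => ?_⟩
  · exact shadow_associated h.shadow (T.pres J) (T.pres K) (T.Δ_ne K)
      (associated_of_shadows h.shadow h'.shadow)
  · exact (shadow_normFree h.shadow (T.pres J) (T.pres K) (T.Δ_ne K) hn).2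
  · exact shadow_cyclic h.shadow (T.Δ_ne K) hc
  · exact shadow_stable h.shadow hd

end Pool.Agent.Results.MP_8e8fd4_gt.TransitiveClosure
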